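import Pool.Agent.Helper56.RC.Defs

/-!
# Project RC: the certificate for `κ = 99/100`, statements (analytic part)

All modules are independent. File `Pool/Agent/<You>/RC/M_XXX.lean`, namespace `Pool.Agent.<You>.RC`, one
theorem `hXXX : ... → StXxx` (hypotheses only as said in the docstring).
FM = (2/3)|σ₂|² + A00 + 2 A0Q + AQQ (StSpl of helper44). Everything is checked numerically
(4800 random pairs).
General facts: for `Adm β P` with `‖β t‖ < 1` all edges are bounded (`Helper87.RC`: `e6_le`, `beta_le`, `P_le`),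
`fc β n = 0` for odd `n`, `fc P n = 0` for even `n` (`β (t+π) = β t`, `P (t+π) = -P t`).
-/

open MeasureTheory Set Filter Metric

namespace Helper56.RC

open Helper49.LT Helper49.RC Helper87.RC Helper44.RC

/-- MODULE PAR (Parseval, about 150 lines). `theorem hPAR : StPar`.
PROOF. Mathlib: `tsum_sq_fourierCoeff`/`hasSum_sq_fourierCoeff` on `AddCircle (2π)` for the bounded measurable
(hence square integrable) periodic functions `β`, `P`; the odd (even) coefficients vanish; for the last two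
formulas use Parseval for the polarized form or for the functions `Re β` and `Re P`, `Im P`:
`fc (Re β) l = (fc β l + conj (fc β (-l)))/2`, so the mean of `(Re β)²` is `b1² + ∑ (1/2)‖uu + conj ww‖²`;
`(3/4) x² + (1/4) y² = (1/2)‖P‖² + (1/4) Re P²`, mean of `P²` is `∑_n fc P n fc P (-n) = 2 ∑_k cp k cm k`. -/
def StPar : Prop := ∀ β P : ℝ → ℂ, Adm β P → (∀ t, ‖β t‖ < 1) →
  (Summable fun k : ℕ => ‖uu β k‖ ^ 2 + ‖ww β k‖ ^ 2) ∧
  mB β = ‖fc β 0‖ ^ 2 + ∑' k : ℕ, (‖uu β k‖ ^ 2 + ‖ww β k‖ ^ 2) ∧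
  (Summable fun k : ℕ => ‖cp P k‖ ^ 2 + ‖cm P k‖ ^ 2) ∧
  rB β = b1 β ^ 2 + ∑' k : ℕ, 1 / 2 * ‖uu β k + (starRingEnd ℂ) (ww β k)‖ ^ 2 ∧
  qP P = ∑' k : ℕ, (1 / 2 * (‖cp P k‖ ^ 2 + ‖cm P k‖ ^ 2) + 1 / 2 * (cp P k * cm P k).re)

/-- MODULE ASN (Fourier series of `|sin|`, about 100 lines). `theorem hASN : StAsn`.
For two edges: `(π/2) |Im (q conj p)| = |p||q| - 2 ∑_{l = 2, 4, ..} Re (conj (nn l p) nn l q)/(l² - 1)`.
PROOF. From `ker_pt` (Helper87.RC.M_KER, proved there with `hSAW`): add the identities for `(p, q)` and for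
`(-p, q)`; `kr p q + kr (-p) q = π |Im (q conj p)|` (Helper44 `StSeg`), `nn n (-p) = (-1)^n nn n p`. -/
def StAsn : Prop := ∀ p q : ℂ,
  HasSum (fun k : ℕ => 2 * ((starRingEnd ℂ) (nn (2 * k + 2) p) * nn (2 * k + 2) q).re
    / ((2 * (k : ℝ) + 2) ^ 2 - 1)) (‖p‖ * ‖q‖ - Real.pi / 2 * |(q * (starRingEnd ℂ) p).im|)

/-- MODULE SGN (Fourier coefficients of the signed support function, about 200 lines). `theorem hSGN : StSgn`.
For a bounded measurable `F` with `F (t + π) = F t` and a vector `q`: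
`Im (q conj ∫_{arg q - π}^{arg q} e^{it} F t dt) = 2 Re` of the series below (`q ≠ 0`; for `q = 0` both are `0`).
PROOF. `q = ‖q‖ e^{iφ}`. For `F = e^{ilt}` (`l` even, `n = l + 1` odd):
`∫_{φ-π}^{φ} e^{int} dt = (e^{inφ} - e^{inφ} e^{-inπ})/(i n) = 2 e^{inφ}/(i n)`, so the left side is
`2 ‖q‖ Re (conj (c_l) e^{-i l φ} ..)/n`. For general `F` use Parseval (`hasSum_..`, the inner product of `F` and the
bounded function `e^{it} 1_{(φ-π, φ)}`), only even `l` occur. In the real part the frequencies `l` and `-l` are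
combined. Write `H k = fc F (2k+2)/(2k+3) - conj (fc F (-(2k+2)))/(2k+1)`. -/
def StSgn : Prop := ∀ F : ℝ → ℂ, Measurable F → (∃ C, ∀ t, ‖F t‖ ≤ C) → (∀ t, F (t + Real.pi) = F t) →
  (Summable fun k : ℕ => ‖fc F (2 * (k : ℤ) + 2) / (2 * k + 3)
      - (starRingEnd ℂ) (fc F (-(2 * (k : ℤ) + 2))) / (2 * k + 1)‖) ∧
  ∀ φ : ℝ, (ee φ * (starRingEnd ℂ) (∫ t in (φ - Real.pi)..φ, ee t * F t)).im
    = 2 * ((fc F 0).re + ∑' k : ℕ, ((fc F (2 * (k : ℤ) + 2) / (2 * k + 3)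
      - (starRingEnd ℂ) (fc F (-(2 * (k : ℤ) + 2))) / (2 * k + 1)) * ee ((2 * (k : ℝ) + 2) * φ)).re)

/-- MODULE C0N (about 200 lines). `theorem hC0N (h₁ : StA0Q) (h₂ : StSgn) : StC0N`.
PROOF. StA0Q with `φ1 θ = arg (F1 θ)`, `φ2 θ = arg (F2 θ)` (measurable), then StSgn with `F = f0 ∘ β`
(`fc F 0 = 1 + fc β 0`, `fc F l = fc β l` for `l ≠ 0`), multiplied by `‖F_j θ‖`; integrate the series term by term
(bounded, absolutely summable): `(1/2π) ∫ ‖F_j‖ e^{i l arg F_j} = conj` of the moment; substitute `θ = t + π/3`,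
`θ = t + 2π/3` (periodicity) to get `sN`. -/
def StC0N : Prop := ∀ β P : ℝ → ℂ, Adm β P → (∀ t, ‖β t‖ < 1) →
  (Summable fun k : ℕ => ‖HH β k‖) ∧
  2 * (1 + b1 β) * (sN β P 0).re
    + 2 * ∑' k : ℕ, (HH β k * (starRingEnd ℂ) (sN β P (2 * k + 2))).re ≤ 2 * A0Q β P

/-- MODULE C00 (about 150 lines). `theorem hC00 (h : StA00) : StC00`.
PROOF. StA00; Fourier series of `E0 = ee t (1 + β)`: `e_n = b_n` for odd `n`, `e_1 = 1 + b_1`. Parseval for the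
function `θ ↦ ∫_{θ-π}^θ E0` (Fourier coefficients `2 e_n/(i n)`): the left side of StA00 is
`∑_{n odd} |e_n|²/n`. -/
def StC00 : Prop := ∀ β P : ℝ → ℂ, Adm β P → (∀ t, ‖β t‖ < 1) →
  1 + 2 * b1 β + ‖fc β 0‖ ^ 2
    + ∑' k : ℕ, (‖uu β k‖ ^ 2 / (2 * k + 3) - ‖ww β k‖ ^ 2 / (2 * k + 1)) ≤ A00 β

/-- MODULE DEL (about 300 lines). `theorem hDEL (h₁ : StAsn) (h₂ : StSgn) : StDel`.
PROOF. `D := (π/2) (1/2π)² ∬ ∑_{j,k} |Im (q_k(s) conj q_j(t))| ds dt`, `q_j(t) = ee t f_j(β t, P t)`, `j = 1, 2`.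
By StAsn (integrate the series, bounded by `C/(l²-1)`): `D = sN0² - 2 ∑_k ‖sN (2k+2)‖²/((2k+2)² - 1)`.
On the other hand `|Im (q conj p)| ≥ ε Im (q conj p)` with the sign `ε = ` sign of `sin (arg q - t - jπ/3)` for
`p = q_j(t)`; for fixed `q` the integral over `t` is `∫_{φ-π}^{φ}` minus `∫_φ^{φ+π}` of the functions
`e^{iτ} (f_j)(τ - jπ/3)` shifted; by `P (t + π) = -P t` the `P` part cancels and the `β` part doubles:
`(π/2)(1/2π) ∫ ∑_j |Im (q conj q_j(t))| dt ≥ (1/4) Im (q conj ∑_j ∫_{φ - jπ/3 - π}^{φ - jπ/3} 2 ee t f_j(β t, 0) dt)/..`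
(constant: for `β = 0` the right side is `2 ‖q‖`), which by StSgn for the functions
`F_j(τ) = ee (-jπ/3) f_j(β (τ - jπ/3), 0)` (Fourier coefficients: frequency `0`: `1 + conj om ^ (2 j) fc β 0`,
frequency `l`: `conj om ^ (2 j) e^{-i l jπ/3} fc β l`, sum over `j = 1, 2`: `2 cos (π (l + 2)/3) = χ_{l+1}`) equals
`‖q‖ (2 - b1 + 2 Re ∑ GG k e^{i l φ})`. Integrate over `q = q_k(s)`. -/
def StDel : Prop := ∀ β P : ℝ → ℂ, Adm β P → (∀ t, ‖β t‖ < 1) →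
  (Summable fun k : ℕ => ‖sN β P (2 * k + 2)‖ ^ 2 / ((2 * (k : ℝ) + 2) ^ 2 - 1)) ∧
  0 ≤ (sN β P 0).re * SS β P
    - 2 * ∑' k : ℕ, ‖sN β P (2 * k + 2)‖ ^ 2 / ((2 * (k : ℝ) + 2) ^ 2 - 1)
    - 2 * ∑' k : ℕ, (GG β k * (starRingEnd ℂ) (sN β P (2 * k + 2))).re

/-- MODULE COE2 (about 150 lines). `theorem hCOE2 (h₁ : StCoe) (h₂ : StSgn) : StCoe2`.
PROOF. StCoe with the alignments `φj = arg F_j - π/2`; `E1 + E2 = ee t (i√3) (1 - β)` (`om + om ^ 2 = i√3`,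
`conj om + conj om ^ 2 = -i√3`). For `q = ‖q‖ e^{iα}`, `φ = α - π/2`: substitute `t = τ - π/2` in
`∫_{φ-π}^{φ} i√3 ee t (1 - β t) dt = √3 ∫_{α-π}^{α} ee τ (1 - β (τ - π/2)) dτ` (`i ee (-π/2) = 1`); then StSgn for
`F τ = 1 - β (τ - π/2)`: `fc F 0 = 1 - fc β 0`, `fc F l = -(-1)^{l/2} fc β l` for even `l ≠ 0`
(`l/2 = k + 1` or `-(k+1)`), so the series is `-(-1)^{k+1} HH β k`. -/
def StCoe2 : Prop := ∀ β P : ℝ → ℂ, Adm β P → (∀ t, ‖β t‖ < 1) →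
  Real.sqrt 3 * ((1 - b1 β) * (sN β P 0).re
    - ∑' k : ℕ, (-1) ^ (k + 1) * (HH β k * (starRingEnd ℂ) (sN β P (2 * k + 2))).re) ≤ AQQ β P

/-- MODULE S2M (second moment of the edge 0, about 80 lines). `theorem hS2M : StS2m`.
PROOF. `nn 2 (ee t (1 + β)) = ee (-2 t) conj (1 + β)² / ‖1 + β‖`. Pointwise lemma: for `z = 1 + b`,
`‖conj z ^ 2/‖z‖ - (1 + (3/2) conj b - b/2)‖ ≤ 3 (‖z‖ - 1 - Re b)` (write `z = r e^{iα}`: the difference is
`r (e^{-2iα} - (3/2) e^{-iα} + (1/2) e^{iα}) + ..`; with `r e^{-iα} = conj z`: the expression is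
`r e^{-2iα} - (3/2) conj z + (1/2) z`, of modulus `r |e^{-2iα} - cos α + 2 i sin α|`, and
`|e^{-2iα} - cos α + 2 i sin α|² ≤ 9 (1 - cos α)²`), `‖z‖ - 1 - Re b = r (1 - cos α)`. Mean:
`mean ‖1 + β‖ ≤ mean (1 + ‖1 + β‖²)/2 = 1 + b1 + mB/2`. -/
def StS2m : Prop := ∀ β P : ℝ → ℂ, Adm β P → (∀ t, ‖β t‖ < 1) →
  ‖s0 β 2 - ((3 / 2 : ℂ) * (starRingEnd ℂ) (ww β 0) - (1 / 2 : ℂ) * uu β 0)‖ ≤ 3 / 2 * mB β ∧
  sg β P 2 = s0 β 2 + sN β P 2

/-- MODULE PT (pointwise inequality; owner helper25/helper19). For `‖b‖ < 1`, `Reg b p`. Numerically the constant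
`94/100` can be `947/1000`. -/
def StPt : Prop := ∀ b p : ℂ, ‖b‖ < 1 → Reg b p →
  2 - b.re + 94 / 100 * (3 / 4 * p.re ^ 2 + 1 / 4 * p.im ^ 2) - 1 / 2 * b.re ^ 2
    ≤ 1 / 2 * (‖f1 b p‖ + ‖f1 b (-p)‖ + ‖f2 b p‖ + ‖f2 b (-p)‖)

/-- MODULE LOC (about 60 lines). `theorem hLOC (h : StPt) : StLoc`.
PROOF. Mean of StPt over the period; `mean ‖f1 (β t) (-P t)‖ = mean ‖f1 (β t) (P t)‖` (shift by `π`),
`nn 0 z = ‖z‖`. -/
def StLoc : Prop := ∀ β P : ℝ → ℂ, Adm β P → (∀ t, ‖β t‖ < 1) →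
  94 / 100 * qP P - 1 / 2 * rB β ≤ SS β P

/-- MODULE SEL3 (selection with a window). `P'(u, φ)` below is `1/2 + χ/2` in the window `|u + 2d| < ρ`, `1` to the
right, `0` to the left. From helper44's `tQQ` with `e2 = 2P' - 1` (vertices and their convex combinations).
`F1`, `F2` are the families in their nominal angle. -/
def StSel3 : Prop := ∀ β P : ℝ → ℂ, Adm β P → (∀ t, ‖β t‖ < 1) → ∀ (d ρ : ℝ) (χ : ℝ → ℝ), Measurable χ →
  (∀ x, |χ x| ≤ 1) → (∀ x, χ (x + 2 * Real.pi) = χ x) → 0 ≤ ρ → 2 * |d| + ρ ≤ Real.pi / 3 →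
  (1 / (2 * Real.pi)) ^ 2 * (∫ θ in (0 : ℝ)..(2 * Real.pi), ∫ u in (-Real.pi)..Real.pi,
      (Real.pi * (if 0 < u then 1 else -1) - u)
        * ((F1 β P (θ + u) * (starRingEnd ℂ) (F1 β P θ)).im
          + (F2 β P (θ + u) * (starRingEnd ℂ) (F2 β P θ)).im))
    + 2 * (1 / (2 * Real.pi)) ^ 2 * (∫ φ in (0 : ℝ)..(2 * Real.pi), ∫ u in (-Real.pi)..Real.pi,
      (Real.pi * (if |u + 2 * d| < ρ then χ φ else if -2 * d < u then 1 else -1) - u)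
        * (F1 β P (φ + u / 2) * (starRingEnd ℂ) (F2 β P (φ - u / 2))).im)
    ≤ AQQ β P

/-- MODULE INT (about 400 lines). `theorem hINT (h : StSel3) : StInt3`.
PROOF. StSel3 with `χ φ = (11/10) cos (3 φ + κ) - (1/10) cos (9 φ + 3 κ)`, `z = e^{iκ}`; `|χ| ≤ 1` because with
`c = cos (3φ+κ)`: `χ = (14/10) c - (4/10) c³`. For fixed `u` the integral over the angle is, by Parseval
(polarized, shifted), `∑_n |F_n|² sin (n u)` resp. `Im ∑ conj (F2_m) F1_n e^{i(n+m)u/2}` over `n - m = 0`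
(constant part) and `n - m = ± 3, ± 9`; integrate over `u` (absolutely convergent):
`∫ (π sgn u - u) sin (n u) du = 2π/n`, `∫ (π sgn(u + 2d) - u) e^{i n u} du = (2π i/n) e^{-2 i n d}`, window average
gives the factor `cos (n ρ)`, `∫_{|u+2d|<ρ} e^{i j u/2} du = R_j e^{-i j d}`. Fourier coefficients in the nominal angle:
`F1_n = e^{-i n π/3} (om δ_{n1} + conj om b_n)` (`n` odd), `e^{-i n π/3} v_n` (`n` even),
`F2_n = e^{-2 i n π/3} (om² δ_{n1} + conj om² b_n)` (`n` odd), `-e^{-2 i n π/3} v_n` (`n` even). -/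
def StInt3 : Prop := ∀ β P : ℝ → ℂ, Adm β P → (∀ t, ‖β t‖ < 1) → ∀ (d ρ : ℝ) (z : ℂ), 0 ≤ ρ →
  2 * |d| + ρ ≤ Real.pi / 3 → ‖z‖ = 1 →
  IQ β P d ρ + 11 / 10 * TW β P d ρ 3 z - 1 / 10 * TW β P d ρ 9 (z ^ 3) ≤ AQQ β P

end Helper56.RC
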