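import Pool.Agent.Helper44.RC.StCut
import Pool.Agent.Helper49.RC.St2

/-!
# Project RC (record constant for MP_b21509_co): the certificate for `κ = 99/100`, definitions

`β` has even Fourier modes (`fc β (2 j)` is the coefficient `b_{2j+1}` of `b = e^{it} β`), `P` has odd modes
(`fc P n` is the coefficient `v_{n+1}` of `v = e^{it} P`). `k : ℕ` stands for the even frequency `l = 2 k + 2`.
-/

open MeasureTheory Set Filter Metric

namespace Helper56.RC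

open Helper49.LT Helper49.RC Helper87.RC Helper44.RC

/-- Fourier coefficients of a bounded measurable function with the period `2π` -/
noncomputable def fc (f : ℝ → ℂ) (n : ℤ) : ℂ :=
  (1 / (2 * Real.pi) : ℂ) * ∫ t in (0 : ℝ)..(2 * Real.pi), f t * ee (-((n : ℝ) * t))

/-- moments of the edges 1, 2 -/
noncomputable def sN (β P : ℝ → ℂ) (n : ℕ) : ℂ :=
  (1 / (2 * Real.pi) : ℂ) * ∫ t in (0 : ℝ)..(2 * Real.pi),
    (nn n (ee t * f1 (β t) (P t)) + nn n (ee t * f2 (β t) (P t)))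

/-- moments of the edge 0 -/
noncomputable def s0 (β : ℝ → ℂ) (n : ℕ) : ℂ :=
  (1 / (2 * Real.pi) : ℂ) * ∫ t in (0 : ℝ)..(2 * Real.pi), nn n (ee t * f0 (β t))

/-- `b_1` (real part) -/
noncomputable def b1 (β : ℝ → ℂ) : ℝ := (fc β 0).re

/-- `u k = b_{l+1}`, `l = 2 k + 2` -/
noncomputable def uu (β : ℝ → ℂ) (k : ℕ) : ℂ := fc β (2 * (k : ℤ) + 2)

/-- `w k = b_{1-l}`, `l = 2 k + 2` -/
noncomputable def ww (β : ℝ → ℂ) (k : ℕ) : ℂ := fc β (-(2 * (k : ℤ) + 2))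

/-- `cp k = v_{2k+2}` -/
noncomputable def cp (P : ℝ → ℂ) (k : ℕ) : ℂ := fc P (2 * (k : ℤ) + 1)

/-- `cm k = v_{-2k}` -/
noncomputable def cm (P : ℝ → ℂ) (k : ℕ) : ℂ := fc P (-(2 * (k : ℤ) + 1))

/-- `HH k`: the signed support function of the edges `E0` is `1 + b1 + Re ∑ HH k e^{ilφ}` -/
noncomputable def HH (β : ℝ → ℂ) (k : ℕ) : ℂ :=
  uu β k / (2 * k + 3) - (starRingEnd ℂ) (ww β k) / (2 * k + 1)

/-- `χ_{l+1}`, `l = 2 k + 2` -/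
noncomputable def chu (k : ℕ) : ℝ := if k % 3 = 1 then 2 else -1

/-- `χ_{1-l}`, `l = 2 k + 2` -/
noncomputable def chw (k : ℕ) : ℝ := if k % 3 = 0 then 2 else -1

/-- the signed support function of the edges 1, 2 (symmetrized) is `2 - b1 + 2 Re ∑ GG k e^{ilφ}` -/
noncomputable def GG (β : ℝ → ℂ) (k : ℕ) : ℂ :=
  (1 / 2) * ((chu k : ℂ) * uu β k / (2 * k + 3)
    - (chw k : ℂ) * (starRingEnd ℂ) (ww β k) / (2 * k + 1))

/-- `S = <|q_1| + |q_2|> - 2 + Re b_1` -/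
noncomputable def SS (β P : ℝ → ℂ) : ℝ := (sN β P 0).re - 2 + b1 β

/-- mean of `(3/4) (Re P)² + (1/4) (Im P)²` -/
noncomputable def qP (P : ℝ → ℂ) : ℝ :=
  (1 / (2 * Real.pi)) * ∫ t in (0 : ℝ)..(2 * Real.pi), (3 / 4 * (P t).re ^ 2 + 1 / 4 * (P t).im ^ 2)

/-- mean of `(Re β)²` -/
noncomputable def rB (β : ℝ → ℂ) : ℝ :=
  (1 / (2 * Real.pi)) * ∫ t in (0 : ℝ)..(2 * Real.pi), (β t).re ^ 2

/-- `γ_n` -/
noncomputable def gam (d ρ : ℝ) (n : ℤ) : ℝ :=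
  1 / 2 + 1 / 2 * Real.cos (2 * Real.pi * (n + 1) / 3 + 2 * n * d) * Real.cos (n * ρ)

/-- `σ_m` -/
noncomputable def sgm (d ρ : ℝ) (m : ℤ) : ℝ :=
  1 / 2 - 1 / 2 * Real.cos (2 * m * (Real.pi / 3 + d)) * Real.cos (m * ρ)

/-- `R_j = (4/j) sin (j ρ/2)` -/
noncomputable def RR (ρ : ℝ) (j : ℤ) : ℝ := 4 / (j : ℝ) * Real.sin (j * ρ / 2)

/-- the coupling coefficient of `b_n` and `v_m`, `j = n + m` -/
noncomputable def KK (d ρ : ℝ) (j : ℤ) : ℝ := Real.cos (Real.pi * (1 + j) / 3 + j * d) * RR ρ j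

/-- the quadratic part of the interleaving bound -/
noncomputable def IQ (β P : ℝ → ℂ) (d ρ : ℝ) : ℝ :=
  2 + 2 * Real.cos (2 * d) * Real.cos ρ
    + (-2 + 4 * Real.cos (2 * Real.pi / 3 + 2 * d) * Real.cos ρ) * b1 β
    + 4 * gam d ρ 1 * ‖fc β 0‖ ^ 2
    + ∑' k : ℕ, (4 * gam d ρ (2 * k + 3) / (2 * k + 3) * ‖uu β k‖ ^ 2
        - 4 * gam d ρ (-(2 * k + 1)) / (2 * k + 1) * ‖ww β k‖ ^ 2)
    + ∑' k : ℕ, 4 * sgm d ρ (2 * k + 2) / (2 * k + 2) * (‖cp P k‖ ^ 2 - ‖cm P (k + 1)‖ ^ 2)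

/-- the window part of frequency `q` (odd), phase `z` -/
noncomputable def TW (β P : ℝ → ℂ) (d ρ : ℝ) (q : ℤ) (z : ℂ) : ℝ :=
  Real.cos (Real.pi * (1 - q) / 3 + (2 - q) * d) * RR ρ (2 - q) * (fc P (-q) * z).im
    - Real.cos (Real.pi * (1 + q) / 3 + (2 + q) * d) * RR ρ (2 + q)
        * ((starRingEnd ℂ) (fc P q) * z).im
    + ∑' j : ℤ, KK d ρ (2 * (2 * j + 1) - q)
        * ((starRingEnd ℂ) (fc β (2 * j)) * fc P (2 * j - q) * z).im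
    - ∑' j : ℤ, KK d ρ (2 * (2 * j + 1) + q)
        * (fc β (2 * j) * (starRingEnd ℂ) (fc P (2 * j + q)) * z).im

end Helper56.RC
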