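import Pool.Agent.Helper56.RC.StF

/-!
# Project RC: `Rs (99/100)` from the modules of `StF`
-/

open MeasureTheory Set Filter Metric

namespace Helper56.RC

open Helper49.LT Helper49.RC Helper87.RC Helper44.RC

/-- Jensen: `(mean of √(1 - ‖β‖²))² ≤ 1 - mean of ‖β‖²` -/
theorem mS_sq_le {β P : ℝ → ℂ} (h : Adm β P) (h1 : ∀ t, ‖β t‖ < 1) : mS β ^ 2 ≤ 1 - mB β := by
  have hpi := Real.pi_pos
  set c := mS β with hc
  have hm : Measurable fun t => ‖β t‖ ^ 2 := (h.mb.norm).pow_const 2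
  have hb : ∀ t, ‖β t‖ ^ 2 ≤ 1 := fun t => by
    have := h1 t; have := norm_nonneg (β t); nlinarith
  have i1 : IntervalIntegrable (fun t => ‖β t‖ ^ 2) volume 0 (2 * Real.pi) := by
    refine (intervalIntegrable_iff.2 ?_)
    refine Measure.integrableOn_of_bounded (M := 1)
      (by simpa using ENNReal.mul_ne_top (by simp) ENNReal.ofReal_ne_top) hm.aestronglyMeasurable ?_
    refine Eventually.of_forall fun t => ?_
    rw [Real.norm_of_nonneg (by positivity)]; exact hb t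
  have i2 : IntervalIntegrable (fun t => Real.sqrt (1 - ‖β t‖ ^ 2)) volume 0 (2 * Real.pi) := by
    refine (intervalIntegrable_iff.2 ?_)
    refine Measure.integrableOn_of_bounded (M := 1)
      (by simpa using ENNReal.mul_ne_top (by simp) ENNReal.ofReal_ne_top)
      ((measurable_const.sub hm).sqrt).aestronglyMeasurable ?_
    refine Eventually.of_forall fun t => ?_
    rw [Real.norm_of_nonneg (Real.sqrt_nonneg _)]
    exact Real.sqrt_le_one.2 (by have := sq_nonneg ‖β t‖; linarith)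
  have key : 0 ≤ ∫ t in (0 : ℝ)..(2 * Real.pi), (Real.sqrt (1 - ‖β t‖ ^ 2) - c) ^ 2 :=
    intervalIntegral.integral_nonneg (by positivity) fun t _ => sq_nonneg _
  have e : (∫ t in (0 : ℝ)..(2 * Real.pi), (Real.sqrt (1 - ‖β t‖ ^ 2) - c) ^ 2)
      = 2 * Real.pi * (1 + c ^ 2) - (∫ t in (0 : ℝ)..(2 * Real.pi), ‖β t‖ ^ 2)
        - 2 * c * ∫ t in (0 : ℝ)..(2 * Real.pi), Real.sqrt (1 - ‖β t‖ ^ 2) := by
    have : ∀ t, (Real.sqrt (1 - ‖β t‖ ^ 2) - c) ^ 2
        = ((1 + c ^ 2) - ‖β t‖ ^ 2) - 2 * c * Real.sqrt (1 - ‖β t‖ ^ 2) := fun t => by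
      have := Real.sq_sqrt (show (0:ℝ) ≤ 1 - ‖β t‖ ^ 2 by have := hb t; linarith)
      linear_combination this
    simp_rw [this]
    rw [intervalIntegral.integral_sub ((intervalIntegrable_const).sub i1) (i2.const_mul _),
      intervalIntegral.integral_sub intervalIntegrable_const i1, intervalIntegral.integral_const,
      intervalIntegral.integral_const_mul]
    simp only [sub_zero, smul_eq_mul]
  have hS : (∫ t in (0 : ℝ)..(2 * Real.pi), Real.sqrt (1 - ‖β t‖ ^ 2)) = 2 * Real.pi * c := by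
    rw [hc, mS]; field_simp
  have hB : (∫ t in (0 : ℝ)..(2 * Real.pi), ‖β t‖ ^ 2) = 2 * Real.pi * mB β := by
    rw [mB]; field_simp
  rw [e, hS, hB] at key
  have : 0 ≤ 2 * Real.pi * (1 - mB β - c ^ 2) := by nlinarith
  have := nonneg_of_mul_nonneg_right this (by positivity)
  linarith

theorem thA_bd (m : ℤ) : 1 / 4 ≤ thA m ∧ thA m ≤ 8 := by
  unfold thA; split_ifs <;> norm_num

theorem thB_bd (m : ℤ) : 1 / 4 ≤ thB m ∧ thB m ≤ 8 := by
  unfold thB; split_ifs <;> norm_num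

theorem thC_bd (m : ℤ) : 1 / 4 ≤ thC m ∧ thC m ≤ 8 := by
  unfold thC; split_ifs <;> norm_num

/-- `‖v_{-2}‖ ≤ 1` in the window regime -/
theorem cm1_le {β P : ℝ → ℂ} (hL : StLoc) (hP : StPar) (h : Adm β P) (h1 : ∀ t, ‖β t‖ < 1)
    (hS : SS β P < 1 / 5 - 1 / 2 * rB β) : ‖cm P 1‖ ≤ 1 := by
  obtain ⟨-, -, hs, -, hq⟩ := hP β P h h1
  have hl := hL β P h h1
  have hn : ∀ k, 0 ≤ 1 / 2 * (‖cp P k‖ ^ 2 + ‖cm P k‖ ^ 2) + 1 / 2 * (cp P k * cm P k).re := fun k => by
    have a := Complex.abs_re_le_norm (cp P k * cm P k)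
    rw [norm_mul] at a
    have := (abs_le.1 a).1
    nlinarith [sq_nonneg (‖cp P k‖ - ‖cm P k‖), norm_nonneg (cp P k), norm_nonneg (cm P k)]
  have hs' : Summable fun k : ℕ => 1 / 2 * (‖cp P k‖ ^ 2 + ‖cm P k‖ ^ 2) + 1 / 2 * (cp P k * cm P k).re := by
    refine Summable.of_nonneg_of_le hn (fun k => ?_) hs
    have a := Complex.abs_re_le_norm (cp P k * cm P k)
    rw [norm_mul] at a
    have := (abs_le.1 a).2
    nlinarith [sq_nonneg (‖cp P k‖ - ‖cm P k‖), norm_nonneg (cp P k), norm_nonneg (cm P k)]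
  have hk := hs'.le_tsum 1 (fun j _ => hn j)
  rw [← hq] at hk
  have a := Complex.abs_re_le_norm (cp P 1 * cm P 1)
  rw [norm_mul] at a
  have b := (abs_le.1 a).1
  have : 3 / 8 * ‖cm P 1‖ ^ 2 ≤ qP P := by nlinarith [sq_nonneg (‖cp P 1‖ - ‖cm P 1‖ / 2)]
  nlinarith [norm_nonneg (cm P 1)]

theorem hFIN (hL : StLoc) (hP : StPar) (g1 : StG1) (g2 : StG2) (g3 : StG3) (g4 : StG4) (ho : StOpt)
    (ba : StBlkA) (bb : StBlkB) (bc : StBlkC) (va : StVprA) (vb : StVprB) (vc : StVprC)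
    (la : StLowA) (lb : StLowB) (lc : StLowC) : Rs (99 / 100) := by
  intro β P h h1
  have hj := mS_sq_le h h1
  suffices hf : 891 / 100 * (1 - mB β) ≤ FM β P by nlinarith
  have hpi := Real.pi_pos
  rcases le_or_gt (3 / 2) (SS β P) with h2 | h2
  · exact g3 β P h h1 h2
  rcases le_or_gt (1 / 10) (mB β) with h3 | h3
  · rcases le_or_gt (1 / 5) (SS β P) with h4 | h4
    · exact g2 β P h h1 h3 h4 h2.le
    · exact g1 β P h h1 h3 h4.le
  rcases le_or_gt (1 / 5 - 1 / 2 * rB β) (SS β P) with h4 | h4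
  · exact g4 β P h h1 h3.le h4 h2.le
  have hx := cm1_le hL hP h h1 h4
  rcases le_or_gt ‖cm P 1‖ (29 / 100) with h5 | h5
  · refine ho _ _ _ _ _ 0 (29 / 100) (by positivity) ?_ (by norm_num) (by norm_num) thA_bd ba va la β P h h1
      h3.le h4 (norm_nonneg _) h5
    rw [abs_neg, abs_of_pos (by positivity)]; linarith
  rcases le_or_gt ‖cm P 1‖ (3 / 5) with h6 | h6
  · refine ho _ _ _ _ _ (29 / 100) (3 / 5) (by positivity) ?_ (by norm_num) (by norm_num) thB_bd bb vb lb β P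
      h h1 h3.le h4 h5.le h6
    rw [abs_of_pos (by positivity)]; linarith
  · refine ho _ _ _ _ _ (3 / 5) 1 (by positivity) ?_ (by norm_num) (by norm_num) thC_bd bc vc lc β P h h1
      h3.le h4 h6.le hx
    rw [abs_of_pos (by positivity)]; linarith

end Helper56.RC
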