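import Pool.Agent.Helper56.RC.St

/-!
# Project RC: the certificate for `κ = 99/100`, second part (from the analytic modules to `Rs (99/100)`)

Cases (`S = SS β P`, `m = mB β`, `r = rB β`, `x = ‖cm P 1‖`):
1. `S ≥ 3/2`: StG3; 2. `m ≥ 1/10`, `1/5 ≤ S ≤ 3/2`: StG2; 3. `m ≥ 1/10`, `S ≤ 1/5`: StG1;
4. `m ≤ 1/10`, `1/5 - r/2 ≤ S ≤ 3/2`: StG4; 5. `m ≤ 1/10`, `S < 1/5 - r/2`: options A (`x ≤ 29/100`),
B (`29/100 ≤ x ≤ 3/5`), C (`3/5 ≤ x`), each by StOpt.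
All numbers were checked by an independent program that follows these definitions literally
(blocks and pairs for `k < 400`, the limits `k → ∞` are safe).
-/

open MeasureTheory Set Filter Metric

namespace Helper56.RC

open Helper49.LT Helper49.RC Helper87.RC Helper44.RC

noncomputable def FSc (μ ν : ℝ) : ℝ := 2 + μ * Real.sqrt 3 - 2 * ν

noncomputable def F1c (μ ν : ℝ) : ℝ := 2 - μ * Real.sqrt 3 + ν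

noncomputable def gg (μ : ℝ) (k : ℕ) : ℝ := 2 - μ * Real.sqrt 3 * (-1) ^ (k + 1)

/-- block form of the pair `(u, w) = (uu β k, ww β k)` -/
noncomputable def QB (μ ν d ρ : ℝ) (k : ℕ) (u w : ℂ) : ℝ :=
  (1 / (2 * k + 3) + (1 - μ) * (4 * gam d ρ (2 * k + 3) / (2 * k + 3))) * ‖u‖ ^ 2
  - (1 / (2 * k + 1) + (1 - μ) * (4 * gam d ρ (-(2 * k + 1)) / (2 * k + 1))) * ‖w‖ ^ 2
  + (if k = 0 then
      2 / 3 * ‖(3 / 2 : ℂ) * (starRingEnd ℂ) w - (1 / 2 : ℂ) * u‖ ^ 2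
      - 3 / (8 * (1 + ν)) * ‖(((gg μ 0 - ν - 2) / 3 : ℝ) : ℂ) * u
          + ((2 - gg μ 0 - 2 * ν : ℝ) : ℂ) * (starRingEnd ℂ) w‖ ^ 2
    else
      - (((2 * (k : ℝ) + 2) ^ 2 - 1) / (8 * ν)) * ‖(((gg μ k + ν * chu k) / (2 * k + 3) : ℝ) : ℂ) * u
          - (((gg μ k + ν * chw k) / (2 * k + 1) : ℝ) : ℂ) * (starRingEnd ℂ) w‖ ^ 2)

/-- MODULE LBT (about 250 lines). `theorem hLBT (h₁ : StSpl) (h₂ : StC00) (h₃ : StC0N) (h₄ : StDel)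
(h₅ : StCoe2) (h₆ : StS2m) (h₇ : StInt3) : StLbt`.
PROOF. `FM = (2/3)|σ₂|² + A00 + 2 A0Q + AQQ` (StSpl), `AQQ = (1-μ) AQQ + μ AQQ ≥ (1-μ) (StInt3) + μ (StCoe2)`, add
`0 ≥ -ν (StDel)`. `sN 0 = 2 + S - b1` (SS). Constant and S, b1 terms: `1 + 2b1`, `2(1+b1)(2+S-b1)`,
`μ√3(1-b1)(2+S-b1)`, `-ν(2+S-b1)S`, `(1-μ)(2+2cc+(-2+4c')b1)` add up to the first line. The moments
`s = sN (2k+2)` appear, for `k ≥ 1`, as `Re(c conj s) + 2ν|s|²/(l²-1)`, `c = gg μ k HH k + 2ν GG k`, `l = 2k+2`,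
`≥ -(l²-1)|c|²/(8ν)`, and for `k = 0` as `(2/3)|s0+s|² + Re(c conj s) + (2ν/3)|s|² ≥ f(s0)`,
`f(s0) = (2ν/(3(1+ν)))|s0|² - Re(conj c s0)/(1+ν) - 3|c|²/(8(1+ν))`; `s0 = L + e`, `L = (3/2) conj w - u/2`,
`|e| ≤ (3/2) mB` (StS2m), `f(L+e) ≥ f(L) - (1/(1+ν)) ‖(g+4ν) conj w - ((g+ν)/3) u‖ |e|` and
`f(L) = (2/3)|L|² - (3/(8(1+ν)))|c + (4/3) L|²`. -/
def StLbt : Prop := ∀ β P : ℝ → ℂ, Adm β P → (∀ t, ‖β t‖ < 1) → ∀ (μ ν d ρ : ℝ) (z : ℂ),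
  0 ≤ μ → μ ≤ 1 → 0 < ν → 0 ≤ ρ → 2 * |d| + ρ ≤ Real.pi / 3 → ‖z‖ = 1 →
  (Summable fun k : ℕ => QB μ ν d ρ k (uu β k) (ww β k)) ∧
  5 + 2 * Real.sqrt 3 * μ + (1 - μ) * (2 + 2 * Real.cos (2 * d) * Real.cos ρ)
    + FSc μ ν * SS β P - ν * SS β P ^ 2 + F1c μ ν * SS β P * b1 β
    + (4 - 3 * Real.sqrt 3 * μ + (1 - μ) * (-2 + 4 * Real.cos (2 * Real.pi / 3 + 2 * d) * Real.cos ρ)) * b1 β
    - (2 - μ * Real.sqrt 3) * b1 β ^ 2 + (1 + (1 - μ) * (4 * gam d ρ 1)) * ‖fc β 0‖ ^ 2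
    + ∑' k : ℕ, QB μ ν d ρ k (uu β k) (ww β k)
    - 3 / (2 * (1 + ν)) * mB β * ‖((gg μ 0 + 4 * ν : ℝ) : ℂ) * (starRingEnd ℂ) (ww β 0)
        - (((gg μ 0 + ν) / 3 : ℝ) : ℂ) * uu β 0‖
    + (1 - μ) * (∑' k : ℕ, 4 * sgm d ρ (2 * k + 2) / (2 * k + 2) * (‖cp P k‖ ^ 2 - ‖cm P (k + 1)‖ ^ 2)
      + 11 / 10 * TW β P d ρ 3 z - 1 / 10 * TW β P d ρ 9 (z ^ 3)) ≤ FM β P

/-- MODULE STP (about 60 lines). `theorem hSTP : StStp`. Here `S + 2 - b1 = mean (‖f1 β P‖ + ‖f2 β P‖)`.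
PROOF. Pointwise `‖f1 b p‖ + ‖f2 b p‖ ≤ 3 (1 + ‖b‖)`: `p = x f1(b,0) + y f2(b,0)`, `|x| + |y| ≤ 1` (Reg), the left
side is convex in `(x, y)`, at the vertices it is `2‖f1‖ + ‖f2 - f1‖`, `‖f1 + f2‖`, ..; `‖f_j(b,0)‖ ≤ 1 + ‖b‖`,
`‖f1(b,0) - f2(b,0)‖ ≤ 1 + ‖b‖`, `‖f1(b,0) + f2(b,0)‖ ≤ √3 (1 + ‖b‖)`. Mean of `‖β‖` is `≤ √mB`. -/
def StStp : Prop := ∀ β P : ℝ → ℂ, Adm β P → (∀ t, ‖β t‖ < 1) →
  SS β P ≤ 1 + 3 * Real.sqrt (mB β) + b1 β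

/-- `10^6 cos (k π/120)`, `k = 0, ..., 60`, rounded -/
def c0 : List ℤ := [1000000, 999657, 998630, 996917, 994522, 991445, 987688, 983255, 978148, 972370, 965926, 958820, 951057, 942641, 933580, 923880, 913545, 902585, 891007, 878817, 866025, 852640, 838671, 824126, 809017, 793353, 777146, 760406, 743145, 725374, 707107, 688355, 669131, 649448, 629320, 608761, 587785, 566406, 544639, 522499, 500000, 477159, 453990, 430511, 406737, 382683, 358368, 333807, 309017, 284015, 258819, 233445, 207912, 182236, 156434, 130526, 104528, 78459, 52336, 26177, 0]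

/-- rounded `10^6 cos (k π/120)` for every integer `k` -/
def cT (k : ℤ) : ℤ :=
  let r := (k % 240).toNat
  if r ≤ 60 then c0.getD r 0 else if r ≤ 120 then -(c0.getD (120 - r) 0)
  else if r ≤ 180 then -(c0.getD (r - 120) 0) else c0.getD (240 - r) 0

/-- MODULE TRG (table of cosines, about 100 lines). `theorem hTRG : StTrg`. (`sin x = cos (x - π/2)`, index
`k - 60`.) PROOF. `cos (π/120)`, `sin (π/120)` from Taylor (`Real.cos_bound`, `Real.sin_bound`, bounds of `π`), then the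
addition formula 60 times (errors at most `10⁻⁷` each), symmetries and periodicity. -/
def StTrg : Prop := ∀ k : ℤ, |Real.cos (k * Real.pi / 120) - (cT k : ℝ) / 10 ^ 6| ≤ 1 / 10 ^ 5

/-! ### the four modules without a window -/

/-- MODULE G1. `theorem hG1 (h₁ : StLbt) (h₂ : StLoc) (h₃ : StPar) : StG1`.
PROOF. StLbt with `μ = ν = 1/2`, `d = ρ = 0`, `z = 1` (`RR 0 j = 0`, so `TW = 0`); FS = 1.8660, F1 = 1.6340,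
linear coefficient of b1: `4 - (3/2)√3 + (1/2)(-4) = -.5981`. With `h = 39/20`, `G = (94/100) h = 1.833`:
(a) for all `k`, `v`, `v'`: `G/2 (‖v‖² + ‖v'‖² + Re (v v')) + (1/2)(4 sgm 0 0 (2k+2)/(2k+2)) ‖v‖²
 - [k ≥ 1] (1/2)(4 sgm 0 0 (2k)/(2k)) ‖v'‖² ≥ 0` (`sgm 0 0 m = 3/4` if `3 ∤ m`, else `0`; the worst pair is
 `k = 1`: `1.2915 * .1665 ≥ .45825²`), so the `v` terms are `≥ -G qP ≥ -h (S + rB/2)` by StLoc;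
(b) blocks, including `(891/100)(‖u‖²+‖w‖²)` and `-(h/4)‖u + conj w‖²` (from `rB`): `k ≥ 1`: `≥ 3.1 (‖u‖²+‖w‖²)`
 (smallest eigenvalue 3.11 at `k = 6`), `k = 0`: `≥ 7.2 ‖u‖² + 5.55 ‖w‖²`;
(c) cubic term: `≤ mB (4.866 ‖w‖ + 1.122 ‖u‖)`, `(5.55-3.1)‖w‖² - 4.866 mB ‖w‖ ≥ -2.42 mB²`, etc.;
(d) scalar: with `m = mB`, `|x1| ≤ ‖fc β 0‖`:
 `-8.91+8.732 (= -.178) + FS S - S²/2 + F1 S x1 - h S - .5981 x1 + (3.1 m - 2.5 m²) + (10.41 - 3.1 - 2.11) x1² ≥ 0`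
 for `m ∈ [1/10, 1]`, `S ∈ [-m/2, 1/5]`, `x1² ≤ m`; minimum .067 at `m = 1/10`. -/
def StG1 : Prop := ∀ β P : ℝ → ℂ, Adm β P → (∀ t, ‖β t‖ < 1) → 1 / 10 ≤ mB β → SS β P ≤ 1 / 5 →
  891 / 100 * (1 - mB β) ≤ FM β P

/-- MODULE G2. `theorem hG2 (h₁ : StLbt) (h₃ : StPar) : StG2`. StLbt with `μ = 1`, `ν = 4/5`, `d = ρ = 0`.
FS = 2.1321, F1 = 1.0679, linear coefficient of b1: `4 - 3√3 = -1.1962`, constant `5 + 2√3 - 8.91 = -.4459`.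
Blocks with `(891/100)(‖u‖²+‖w‖²)`: `k ≥ 1`: `≥ 2.56 (..)`, `k = 0`: `≥ 9.1 ‖u‖² + 6.8 ‖w‖²`; cubic
`≤ mB (5.777 ‖w‖ + 1.259 ‖u‖)`, so blocks - cubic `≥ 2.56 m - 2.06 m²` (without `fc β 0`).
Scalar: `-.4459 + FS S - (4/5) S² + F1 S x1 - 1.1962 x1 + 2.56 m - 2.06 m² + (9.91 - 2.56 - .27) x1² ≥ 0` for
`m ∈ [1/10, 1]`, `S ∈ [1/5, 3/2]`; it is concave in `S` and in `m`; minimum .15. -/
def StG2 : Prop := ∀ β P : ℝ → ℂ, Adm β P → (∀ t, ‖β t‖ < 1) → 1 / 10 ≤ mB β → 1 / 5 ≤ SS β P →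
  SS β P ≤ 3 / 2 → 891 / 100 * (1 - mB β) ≤ FM β P

/-- MODULE G3. `theorem hG3 (h₁ : StLbt) (h₂ : StStp) (h₃ : StPar) : StG3`. StLbt with `μ = 1`, `ν = 1/2`,
`d = ρ = 0`. FS = 2.7320, F1 = .7679. Blocks: `k ≥ 1`: `≥ .14 (..)`, `k = 0`: `≥ 9.1 ‖u‖² + 7.3 ‖w‖²`; cubic
`≤ mB (5.733 ‖w‖ + 1.411 ‖u‖)`, so `≥ .14 m - 1.21 m²`. Scalar:
`-.4459 + FS S - S²/2 + F1 S x1 - 1.1962 x1 + .14 m - 1.21 m² + 9.4 x1² ≥ 0` for `S ∈ [3/2, 1 + 3√m + x1]`;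
concave in `S`; minimum > 1. -/
def StG3 : Prop := ∀ β P : ℝ → ℂ, Adm β P → (∀ t, ‖β t‖ < 1) → 3 / 2 ≤ SS β P →
  891 / 100 * (1 - mB β) ≤ FM β P

/-- MODULE G4. `theorem hG4 (h₁ : StLbt) (h₃ : StPar) : StG4`. StLbt with `μ = 1`, `ν = 11/20`, `d = ρ = 0`.
FS = 2.6320, F1 = .8179. `T(S) = FS S - ν S² + F1 S x1` is increasing on `S ≤ 3/2` (`|x1| ≤ √(1/10)`), so
`T(S) ≥ T(1/5 - r)`, `r = rB/2`, `≥ FS/5 - ν/25 + F1 x1/5 - FS r - ν r² - F1 r x1`, `r ≤ m/2`. Blocks with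
`(891/100)(‖u‖²+‖w‖²) - (FS/4)‖u + conj w‖²`: `k ≥ 1`: `≥ .63 (..)` (`k = 6`: .637), `k = 0`:
`≥ 7.8 ‖u‖² + 5.9 ‖w‖²`; cubic `≤ mB (5.741 ‖w‖ + 1.382 ‖u‖)`. Scalar (`m ≤ 1/10`):
`-.4459 + .5044 + (.1636 - 1.1962) x1 + (9.91 - .63 - 1.59) x1² + .63 m - 1.64 m² - .14 m² - .41 m |x1| ≥ 0`;
minimum .027. -/
def StG4 : Prop := ∀ β P : ℝ → ℂ, Adm β P → (∀ t, ‖β t‖ < 1) → mB β ≤ 1 / 10 →
  1 / 5 - 1 / 2 * rB β ≤ SS β P → SS β P ≤ 3 / 2 → 891 / 100 * (1 - mB β) ≤ FM β P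

/-! ### the options with a window: `μ = 1/20`, `ν = 33/200` -/

/-- coupling coefficient of `b_n` and `v_m`, `m - n ∈ {±3, ±9}` -/
noncomputable def aK (d ρ : ℝ) (n m : ℤ) : ℝ :=
  if n = 1 ∧ m = -2 then 0 else 19 / 20 * (if (m - n) ^ 2 = 9 then 11 / 10 else 1 / 10) * |KK d ρ (n + m)|

/-- weight of the pair `(b_n, v_m)` -/
noncomputable def wt (θ : ℤ → ℝ) (n m : ℤ) : ℝ := if n = 1 ∧ m = 4 then 2 else θ m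

noncomputable def bC (θ : ℤ → ℝ) (d ρ : ℝ) (n : ℤ) : ℝ :=
  wt θ n (n - 9) * aK d ρ n (n - 9) + wt θ n (n - 3) * aK d ρ n (n - 3)
    + wt θ n (n + 3) * aK d ρ n (n + 3) + wt θ n (n + 9) * aK d ρ n (n + 9)

noncomputable def vC (θ : ℤ → ℝ) (d ρ : ℝ) (m : ℤ) : ℝ :=
  aK d ρ (m - 9) m / (4 * wt θ (m - 9) m) + aK d ρ (m - 3) m / (4 * wt θ (m - 3) m)
    + aK d ρ (m + 3) m / (4 * wt θ (m + 3) m) + aK d ρ (m + 9) m / (4 * wt θ (m + 9) m)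

noncomputable def AA (d ρ : ℝ) : ℝ :=
  -(19 / 20 * (11 / 10) * Real.cos (2 * Real.pi / 3 + d) * (4 * Real.sin (ρ / 2)))

noncomputable def BB (d ρ : ℝ) : ℝ :=
  19 / 20 * (11 / 10) * Real.cos (4 * Real.pi / 3 + 5 * d) * (4 / 5 * Real.sin (5 * ρ / 2))

/-- coefficient of the coupling of `b_1` and `v_{-2}` -/
noncomputable def K1 (d ρ : ℝ) : ℝ := 19 / 20 * (11 / 10) * |KK d ρ (-1)|

noncomputable def l8 (d ρ : ℝ) : ℝ :=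
  19 / 20 * (1 / 10) * |Real.cos (8 * Real.pi / 3 + 7 * d) * (4 / 7 * Real.sin (7 * ρ / 2))|

noncomputable def l10 (d ρ : ℝ) : ℝ :=
  19 / 20 * (1 / 10) * |Real.cos (10 * Real.pi / 3 + 11 * d) * (4 / 11 * Real.sin (11 * ρ / 2))|

/-- MODULE TWB (bound of the window part, about 250 lines). `theorem hTWB (h : StPar) : StTwb`.
PROOF. If `cm P 1 ≠ 0` take `z = -i ‖cm P 1‖/cm P 1`, `a = Re (cp P 1 * cm P 1)/‖cm P 1‖`; else `a = 0` and `z`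
with `Im (conj (cp P 1) z) = 0`. The terms of `TW` with `q = 3` free of `β` give `AA ‖cm 1‖ + BB a`, those with
`q = 9` are `≥ -l8 ‖cm 4‖ - l10 ‖cp 4‖`. The series are absolutely convergent (`|KK d ρ j| ≤ 4/|j|`,
Cauchy-Schwarz, StPar), each term is `≤ |KK| ‖b_n‖ ‖v_m‖ ≤ |KK| (w ‖b_n‖² + ‖v_m‖²/(4 w))`, `w = wt θ n m`,
except the term `(n, m) = (1, -2)`, kept. Here `fc β (2 j) = b_n`, `n = 2 j + 1`; `fc P (2 j - q) = v_m`,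
`m = n - q`; `fc P (2 j + q) = v_m`, `m = n + q`; `KK` has the index `n + m`. -/
def StTwb : Prop := ∀ β P : ℝ → ℂ, Adm β P → (∀ t, ‖β t‖ < 1) → ∀ (d ρ : ℝ) (θ : ℤ → ℝ),
  (∀ m, 1 / 4 ≤ θ m ∧ θ m ≤ 8) → ∃ (z : ℂ) (a : ℝ), ‖z‖ = 1 ∧ |a| ≤ ‖cp P 1‖ ∧
  ‖cm P 1‖ * a = (cp P 1 * cm P 1).re ∧
  (Summable fun k : ℕ => bC θ d ρ (2 * k + 3) * ‖uu β k‖ ^ 2 + bC θ d ρ (-(2 * k + 1)) * ‖ww β k‖ ^ 2) ∧
  (Summable fun k : ℕ => vC θ d ρ (2 * k + 2) * ‖cp P k‖ ^ 2 + vC θ d ρ (-(2 * k)) * ‖cm P k‖ ^ 2) ∧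
  AA d ρ * ‖cm P 1‖ + BB d ρ * a - K1 d ρ * ‖fc β 0‖ * ‖cm P 1‖ - l8 d ρ * ‖cm P 4‖ - l10 d ρ * ‖cp P 4‖
    - bC θ d ρ 1 * ‖fc β 0‖ ^ 2
    - ∑' k : ℕ, (bC θ d ρ (2 * k + 3) * ‖uu β k‖ ^ 2 + bC θ d ρ (-(2 * k + 1)) * ‖ww β k‖ ^ 2)
    - ∑' k : ℕ, (vC θ d ρ (2 * k + 2) * ‖cp P k‖ ^ 2 + vC θ d ρ (-(2 * k)) * ‖cm P k‖ ^ 2)
    ≤ 19 / 20 * (11 / 10 * TW β P d ρ 3 z - 1 / 10 * TW β P d ρ 9 (z ^ 3))

/-- block inequality of an option -/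
def Blk (d ρ : ℝ) (θ : ℤ → ℝ) : Prop := ∀ (k : ℕ) (u w : ℂ),
  (bC θ d ρ (2 * k + 3) + 17 / 100 + if k = 0 then 3 else 0) * ‖u‖ ^ 2
    + (bC θ d ρ (-(2 * k + 1)) + 17 / 100 + if k = 0 then 3 else 0) * ‖w‖ ^ 2
  ≤ QB (1 / 20) (33 / 200) d ρ k u w + 891 / 100 * (‖u‖ ^ 2 + ‖w‖ ^ 2)
    - FSc (1 / 20) (33 / 200) / 4 * ‖u + (starRingEnd ℂ) w‖ ^ 2

/-- pair inequality of an option, `v = v_{2k+2}`, `v' = v_{-2k}`, `k ≠ 1` -/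
def Vpr (d ρ l comp : ℝ) (θ : ℤ → ℝ) : Prop := ∀ (k : ℕ) (v v' : ℂ), k ≠ 1 →
  (if k = 4 then l10 d ρ * ‖v‖ + l8 d ρ * ‖v'‖ - comp else 0)
    + vC θ d ρ (2 * k + 2) * ‖v‖ ^ 2 + vC θ d ρ (-(2 * k)) * ‖v'‖ ^ 2
  ≤ (FSc (1 / 20) (33 / 200) - l) * (47 / 100) * (‖v‖ ^ 2 + ‖v'‖ ^ 2 + (v * v').re)
    + 19 / 20 * (4 * sgm d ρ (2 * k + 2) / (2 * k + 2)) * ‖v‖ ^ 2
    - (if k = 0 then 0 else 19 / 20 * (4 * sgm d ρ (2 * k) / (2 * k)) * ‖v'‖ ^ 2)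

/-- the scalar function of an option; `q = .94 ·` (the part of `qP` of the pair `v_{-2}, v_4`), `qh` the rest -/
noncomputable def LowF (d ρ l comp : ℝ) (θ : ℤ → ℝ) (x a z2 y0 x1 q qh : ℝ) : ℝ :=
  5 + Real.sqrt 3 / 10 + 19 / 20 * (2 + 2 * Real.cos (2 * d) * Real.cos ρ) - 891 / 100
  + FSc (1 / 20) (33 / 200) * q - 33 / 200 * q ^ 2 + l * qh - 33 / 200 * qh * (2 * q + qh)
  + (19 / 20 * sgm d ρ 4 - vC θ d ρ 4) * z2 - (2 * (19 / 20) * sgm d ρ 2 + vC θ d ρ (-2)) * x ^ 2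
  + AA d ρ * x + BB d ρ * a - comp
  + (1 + 19 / 20 * (4 * gam d ρ 1) + 891 / 100 - 17 / 100 - bC θ d ρ 1) * y0 ^ 2
  - (2 - Real.sqrt 3 / 20 + FSc (1 / 20) (33 / 200) / 2) * x1 ^ 2
  - (if 0 ≤ x1 then 52 / 100 * x1 ^ 2 else 0)
  + (4 - 3 * Real.sqrt 3 / 20 + 19 / 20 * (-2 + 4 * Real.cos (2 * Real.pi / 3 + 2 * d) * Real.cos ρ)
      + F1c (1 / 20) (33 / 200) * (q + qh)) * x1
  - K1 d ρ * x * y0

/-- scalar inequality of an option for `x ∈ [xa, xb]` -/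
def Low (d ρ l comp : ℝ) (θ : ℤ → ℝ) (xa xb : ℝ) : Prop := ∀ x a z2 y0 x1 q qh : ℝ, xa ≤ x → x ≤ xb →
  a ^ 2 ≤ z2 → |x1| ≤ y0 → y0 ^ 2 ≤ 1 / 10 → 0 ≤ qh → q = 47 / 100 * (x ^ 2 + z2 + x * a) →
  q + qh ≤ 1 / 5 → 0 ≤ LowF d ρ l comp θ x a z2 y0 x1 q qh

noncomputable def thA (m : ℤ) : ℝ :=
  if m = -8 then 5 / 4 else if m = -6 then 3 / 2 else if m = -4 then 23 / 4 else if m = -2 then 31 / 4 else
  if m = 0 then 1 / 4 else if m = 2 then 1 / 2 else if m = 4 then 9 / 4 else if m = 6 then 4 else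
  if m = 8 then 3 / 2 else if m = 10 then 5 / 4 else 1

noncomputable def thB (m : ℤ) : ℝ :=
  if m = -8 then 5 / 4 else if m = -6 then 3 / 4 else if m = -4 then 7 / 4 else if m = -2 then 21 / 4 else
  if m = 0 then 11 / 4 else if m = 2 then 3 / 2 else if m = 4 then 13 / 4 else if m = 6 then 17 / 4 else
  if m = 8 then 9 / 4 else if m = 10 then 3 / 2 else 1

noncomputable def thC (m : ℤ) : ℝ :=
  if m = -8 then 5 / 2 else if m = -6 then 5 / 4 else if m = -4 then 1 else if m = -2 then 21 / 4 else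
  if m = 0 then 3 / 4 else if m = 2 then 3 / 4 else if m = 4 then 3 else if m = 6 then 7 / 4 else
  if m = 8 then 1 / 2 else if m = 10 then 3 else 1

/-- MODULE OPT (assembly of an option, about 250 lines).
`theorem hOPT (h₁ : StLbt) (h₂ : StLoc) (h₃ : StPar) (h₄ : StTwb) : StOpt`.
PROOF. `S = SS`, `qP = q' / .94`, `r = rB/2`; `T(S) = FS S - ν S² + F1 S b1` is increasing for `S ≤ 1/5`
(`|b1| ≤ √(1/10)`), and `S ≥ q' - r`, `q' = (94/100) qP` (StLoc), so `q' < 1/5` and `T(S) ≥ T(q' - r)`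
`≥ FS q' - FS r - ν q'² - ν r² + F1 q' b1 - F1 r b1`; `ν r² ≤ (33/200)(1/4)(1/10) m ≤ .0042 m`; `F1 r b1 ≤ 0` if
`b1 < 0`, `≤ (F1/4)(b1² + rB²) ≤ .52 b1² + .052 m` if `b1 ≥ 0` (`F1 = 2.0784`); cubic term
`≤ m (3.5364 ‖w‖ + .9663 ‖u‖) ≤ 3‖w‖² + 3‖u‖² + 1.121 m² ≤ .. + .1121 m`; altogether `≤ .17 m`,
`m = ‖fc β 0‖² + ∑ (‖u‖² + ‖w‖²)`. `rB = b1² + ∑ (1/2)‖u + conj w‖²`. `q' = q + qh`, `q` the term `k = 1` of `qP`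
(StPar, StTwb: `(cp 1 * cm 1).re = ‖cm 1‖ a`), `- ν q'² = -ν q² - ν qh (2q + qh)`, `FS qh = (FS - l) qh + l qh`, the
first part is used in `Vpr` (`k ≠ 1`). Then `Blk`, `Vpr`, `Low` with `x = ‖cm P 1‖`, `z2 = ‖cp P 1‖²`,
`y0 = ‖fc β 0‖`, `x1 = b1`. -/
def StOpt : Prop := ∀ (d ρ l comp : ℝ) (θ : ℤ → ℝ) (xa xb : ℝ), 0 ≤ ρ → 2 * |d| + ρ ≤ Real.pi / 3 →
  0 ≤ l → l ≤ 1 / 10 → (∀ m, 1 / 4 ≤ θ m ∧ θ m ≤ 8) → Blk d ρ θ → Vpr d ρ l comp θ →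
  Low d ρ l comp θ xa xb → ∀ β P : ℝ → ℂ, Adm β P → (∀ t, ‖β t‖ < 1) → mB β ≤ 1 / 10 →
  SS β P < 1 / 5 - 1 / 2 * rB β → xa ≤ ‖cm P 1‖ → ‖cm P 1‖ ≤ xb → 891 / 100 * (1 - mB β) ≤ FM β P

/-! ### numeric modules. `hX : StX` without hypotheses (use MODULE TRG: table of cosines)
Option A: `d = -π/120`, `ρ = π/20`; B: `d = π/40`, `ρ = π/10`; C: `d = π/30`, `ρ = 2π/15`. -/

def StBlkA : Prop := Blk (-(Real.pi / 120)) (Real.pi / 20) thA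
def StBlkB : Prop := Blk (Real.pi / 40) (Real.pi / 10) thB
def StBlkC : Prop := Blk (Real.pi / 30) (2 * Real.pi / 15) thC
def StVprA : Prop := Vpr (-(Real.pi / 120)) (Real.pi / 20) (1 / 20) (1 / 1000) thA
def StVprB : Prop := Vpr (Real.pi / 40) (Real.pi / 10) (1 / 25) (3 / 1000) thB
def StVprC : Prop := Vpr (Real.pi / 30) (2 * Real.pi / 15) (33 / 500) (27 / 5000) thC
def StLowA : Prop := Low (-(Real.pi / 120)) (Real.pi / 20) (1 / 20) (1 / 1000) thA 0 (29 / 100)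
def StLowB : Prop := Low (Real.pi / 40) (Real.pi / 10) (1 / 25) (3 / 1000) thB (29 / 100) (3 / 5)
def StLowC : Prop := Low (Real.pi / 30) (2 * Real.pi / 15) (33 / 500) (27 / 5000) thC (3 / 5) 1

end Helper56.RC
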