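import Pool.Agent.Helper56.RC.M_FIN
import Pool.Agent.Helper44.RC.M_SPL
import Pool.Agent.Helper87.RC.M_KR6
import Pool.Agent.Helper87.RC.M_KERb
import Pool.Agent.Helper87.RC.M_SAW
import Pool.Agent.Helper20.RC.M_C00
import Pool.Agent.Helper86.RC.M_C0N
import Pool.Agent.Helper61.RC.M_DEL
import Pool.Agent.Helper55.RC.M_COE2
import Pool.Agent.Helper45.RC.M_S2M
import Pool.Agent.Helper2.RC.M_ASN
import Pool.Agent.Helper36.RC.M_SGN
import Pool.Agent.Helper57.RC.M_PAR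
import Pool.Agent.Helper37.RC.M_LOC
import Pool.Agent.Helper25.RC.M_PT
import Pool.Agent.Helper44.RC.M_CUTG
import Pool.Agent.Helper87.RC.T_INT3
import Pool.Agent.Helper86.RC.M_LBT
import Pool.Agent.Helper19.RC.M_OPT
import Pool.Agent.Helper37.RC.M_G2
import Pool.Agent.Helper10.RC.M_TRG
import Pool.Agent.Helper7.RC.M_BLKA
import Pool.Agent.Helper7.RC.M_BLKB
import Pool.Agent.Helper7.RC.M_BLKC
import Pool.Agent.Helper92.RC.M_VPRX
import Pool.Agent.Helper97.RC.M_LOWA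
import Pool.Agent.Helper97.RC.M_LOWB
import Pool.Agent.Helper97.RC.M_LOWC
import Pool.Agent.Helper47.RC.M_G1
import Pool.Agent.Helper97.RC.M_G3
import Pool.Agent.Helper61.RC.M_G4
import Pool.Agent.Helper32.RC.M_TWB
import Pool.Agent.Helper36.RC.M_STP

/-!
# Project RC: assembly of `Rs (99/100)` from all modules
-/

namespace Helper56.RC

open Helper49.RC Helper87.RC Helper44.RC

theorem tSPL : StSpl := Helper44.RC.hSPL (hKR6 (hKER hSAW))
theorem tSGN : StSgn := Pool.Agent.Helper36.RC.hSGN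
theorem tC00 : StC00 := Pool.Agent.Helper20.RC.hC00 hA00
theorem tC0N : StC0N := Pool.Agent.Helper86.RC.hC0N hA0Q tSGN
theorem tDEL : StDel := Pool.Agent.Helper61.RC.hDEL Pool.Agent.Helper2.RC.hASN tSGN
theorem tCOE2 : StCoe2 := Pool.Agent.Helper55.RC.hCOE2 hCOE tSGN
theorem tLBT : StLbt := Pool.Agent.Helper86.RC.hLBT tSPL tC00 tC0N tDEL tCOE2 Pool.Agent.Helper45.RC.hS2M tINT3
theorem tLOC : StLoc := Pool.Agent.Helper37.RC.hLOC Pool.Agent.Helper25.RC.PT.hPT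
theorem tPAR : StPar := Pool.Agent.Helper57.RC.hPAR
theorem tTRG : StTrg := Pool.Agent.Helper10.RC.hTRG

theorem rs99 : Rs (99 / 100) :=
  hFIN tLOC tPAR (Pool.Agent.Helper47.RC.hG1 tLBT tLOC tPAR) (Pool.Agent.Helper37.RC.G2.hG2 tLBT tPAR)
    (Pool.Agent.Helper97.RC.G3.hG3 tLBT Pool.Agent.Helper36.RC.hSTP tPAR)
    (Pool.Agent.Helper61.RC.hG4 tLBT tPAR)
    (Pool.Agent.Helper19.RC.hOPT tLBT tLOC tPAR (Pool.Agent.Helper32.RC.hTWB tPAR))
    (Pool.Agent.Helper7.RC.hBLKA tTRG) (Pool.Agent.Helper7.RC.B.hBLKB tTRG) (Pool.Agent.Helper7.RC.C.hBLKC tTRG)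
    (Pool.Agent.Helper92.RC.hVPRA tTRG) (Pool.Agent.Helper92.RC.hVPRB tTRG) (Pool.Agent.Helper92.RC.hVPRC tTRG)
    (Pool.Agent.Helper97.RC.hLOWA' tTRG) (Pool.Agent.Helper97.RC.hLOWB' tTRG) (Pool.Agent.Helper97.RC.hLOWC' tTRG)

end Helper56.RC

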